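import Pool.Agent.helper51.QW.Spec

set_option autoImplicit false

namespace Pool.Agent.PT

open Finset Pool.Agent.helper71.AA

theorem QWL : QWL_stmt := by
  classical
  intro M b hM hb eps heps
  obtain ⟨L₀, hL₀⟩ := Pool.Agent.helper85.SQ.bv_sq M b hM hb
  obtain ⟨C, x₀, hC, hSW⟩ := Pool.Agent.helper74.TG.siegel_walfisz 1 1
  have hφ : (0 : ℝ) < Nat.totient M := by exact_mod_cast Nat.totient_pos.2 hM
  have ht : Filter.Tendsto (fun N : ℕ => Real.log (N : ℝ)) Filter.atTop Filter.atTop :=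
    Real.tendsto_log_atTop.comp tendsto_natCast_atTop_atTop
  have hlin : Filter.Tendsto (fun N : ℕ => Real.log (N : ℝ) / (N : ℝ)) Filter.atTop (nhds 0) := by
    have h := Real.isLittleO_log_id_atTop.tendsto_div_nhds_zero.comp
      (tendsto_natCast_atTop_atTop (R := ℝ))
    exact h
  have e1 := ht.eventually_ge_atTop (max L₀ (max ((2 : ℝ) ^ 20) (max (M : ℝ)
    (2 * C * Nat.totient M / eps))))
  have e2 := (tendsto_natCast_atTop_atTop (R := ℝ)).eventually_ge_atTop (max x₀ 1)
  have e3 := hlin.eventually_le_const (show (0 : ℝ) < eps / (2 * Nat.totient M) by positivity)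
  obtain ⟨N₀, hN₀⟩ := Filter.eventually_atTop.1 ((e1.and e2).and e3)
  refine ⟨N₀, fun N hN P hP1 hP2 S hS => ?_⟩
  obtain ⟨⟨h1, h2⟩, h3⟩ := hN₀ N hN
  have hLL : L₀ ≤ Real.log N := (le_max_left _ _).trans h1
  have h20 : (2 : ℝ) ^ 20 ≤ Real.log N :=
    (le_max_left _ _).trans ((le_max_right _ _).trans h1)
  have hMl : (M : ℝ) ≤ Real.log N :=
    (le_max_left _ _).trans ((le_max_right _ _).trans ((le_max_right _ _).trans h1))
  have hCl : 2 * C * Nat.totient M / eps ≤ Real.log N :=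
    (le_max_right _ _).trans ((le_max_right _ _).trans ((le_max_right _ _).trans h1))
  have hx₀ : x₀ ≤ (N : ℝ) := (le_max_left _ _).trans h2
  have hN1 : (1 : ℝ) ≤ N := (le_max_right _ _).trans h2
  have hN1' : 1 ≤ N := by exact_mod_cast hN1
  have hNpos : (0 : ℝ) < N := by linarith
  set l : ℝ := Real.log N with hl
  have hl1 : (1 : ℝ) ≤ l := le_trans (by norm_num) h20
  have hl0 : (0 : ℝ) < l := by linarith
  -- the class `b` mod `M`
  have hsw := hSW N hx₀ M hM (by simpa using hMl) b hb N le_rfl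
  rw [pow_one] at hsw
  have hψ : (1 - eps) * ((N : ℝ) / Nat.totient M)
      ≤ ∑ n ∈ Ioc 0 N with n ≡ b [MOD M], ArithmeticFunction.vonMangoldt n - l := by
    have ha := (abs_le.1 hsw).1
    have hb' : C * (N : ℝ) / l ≤ eps * N / (2 * Nat.totient M) := by
      rw [div_le_iff₀ heps] at hCl
      rw [div_le_div_iff₀ hl0 (by positivity)]
      nlinarith [mul_le_mul_of_nonneg_left hCl hNpos.le]
    have hc : l ≤ eps * N / (2 * Nat.totient M) := by
      rw [div_le_iff₀ hNpos] at h3
      calc l ≤ eps / (2 * Nat.totient M) * N := h3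
        _ = eps * N / (2 * Nat.totient M) := by ring
    have hd : (1 - eps) * ((N : ℝ) / Nat.totient M) = N / Nat.totient M -
        eps * N / (2 * Nat.totient M) - eps * N / (2 * Nat.totient M) := by field_simp; ring
    linarith
  -- the mean value theorem
  have hL1 : 1 + l ≤ 2 * l := by linarith
  have hbv := hL₀ N (1 + l) rfl (by linarith) P
    (by
      refine le_trans ?_ hP1
      calc (1 + l) ^ 9 ≤ (2 * l) ^ 9 := by gcongr
        _ = 2 ^ 9 * l ^ 9 := by ring
        _ ≤ l * l ^ 9 := by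
            gcongr
            exact le_trans (by norm_num) h20
        _ = l ^ 10 := by ring)
    (by
      refine le_trans ?_ hP2
      gcongr
      calc (1 + l) ^ 20 ≤ (2 * l) ^ 20 := by gcongr
        _ = 2 ^ 20 * l ^ 20 := by ring
        _ ≤ l * l ^ 20 := by gcongr
        _ = l ^ 21 := by ring)
    S hS (fun p => p ^ 2 - 1)
    (by
      intro p hp
      have hp2 : 1 ≤ p ^ 2 := Nat.one_le_pow _ _ (hS p hp).1.pos
      have : Nat.Coprime (p ^ 2 - 1) (p ^ 2 - 1 + 1) := by simp
      rwa [Nat.sub_add_cancel hp2] at this)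
  have hPpos : (0 : ℝ) < P := lt_of_lt_of_le (by positivity) hP1
  have herr : (N : ℝ) / (P * (1 + l) ^ 2) ≤ N / (P * l ^ 2) := by
    gcongr
    linarith
  -- per prime
  have hper : ∀ p ∈ S, (1 - eps) * ((N : ℝ) / ((Nat.totient M : ℝ) * (p : ℝ) ^ 2))
      - |∑ n ∈ Ioc 0 N, ArithmeticFunction.vonMangoldt n *
          Pool.Agent.helper85.SQ.km M b (p ^ 2) (p ^ 2 - 1) n|
      ≤ ∑ n ∈ Ioc 0 N with n ≡ b [MOD M] ∧ n ≡ p ^ 2 - 1 [MOD p ^ 2],
          ArithmeticFunction.vonMangoldt n := by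
    intro p hp
    have hpp := (hS p hp).1
    have hs := Pool.Agent.helper85.SQ.FL_split M b p N
    have hc := Pool.Agent.helper85.SQ.FL_coprime M b p N hpp hN1'
    have hφp : (0 : ℝ) < Nat.totient (p ^ 2) := by
      exact_mod_cast Nat.totient_pos.2 (pow_pos hpp.pos 2)
    have hφle : (Nat.totient (p ^ 2) : ℝ) ≤ (p : ℝ) ^ 2 := by
      exact_mod_cast Nat.totient_le (p ^ 2)
    have hp2 : (0 : ℝ) < (p : ℝ) ^ 2 := by
      have := hpp.pos
      positivity
    have h5 : (1 - eps) * ((N : ℝ) / ((Nat.totient M : ℝ) * (p : ℝ) ^ 2))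
        ≤ (∑ n ∈ Ioc 0 N with n ≡ b [MOD M] ∧ Nat.Coprime n (p ^ 2),
            ArithmeticFunction.vonMangoldt n) / (Nat.totient (p ^ 2) : ℝ) := by
      rcases le_or_gt eps 1 with h6 | h6
      · have h7 : 0 ≤ (1 - eps) * ((N : ℝ) / Nat.totient M) := by
          apply mul_nonneg (by linarith)
          positivity
        calc (1 - eps) * ((N : ℝ) / ((Nat.totient M : ℝ) * (p : ℝ) ^ 2))
            = ((1 - eps) * (N / Nat.totient M)) / (p : ℝ) ^ 2 := by
              rw [← div_div, mul_div_assoc]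
          _ ≤ ((1 - eps) * (N / Nat.totient M)) / (Nat.totient (p ^ 2) : ℝ) := by gcongr
          _ ≤ _ := by
              gcongr
              linarith
      · have h7 : (1 - eps) * ((N : ℝ) / ((Nat.totient M : ℝ) * (p : ℝ) ^ 2)) ≤ 0 := by
          apply mul_nonpos_of_nonpos_of_nonneg (by linarith)
          positivity
        have h8 : (0 : ℝ) ≤ (∑ n ∈ Ioc 0 N with n ≡ b [MOD M] ∧ Nat.Coprime n (p ^ 2),
            ArithmeticFunction.vonMangoldt n) / (Nat.totient (p ^ 2) : ℝ) :=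
          div_nonneg (Finset.sum_nonneg fun _ _ => ArithmeticFunction.vonMangoldt_nonneg) hφp.le
        linarith
    have h6 := (abs_le.1 (le_refl
      |∑ n ∈ Ioc 0 N, ArithmeticFunction.vonMangoldt n *
        Pool.Agent.helper85.SQ.km M b (p ^ 2) (p ^ 2 - 1) n|)).1
    linarith
  have hsum := Finset.sum_le_sum hper
  rw [Finset.sum_sub_distrib] at hsum
  linarith

end Pool.Agent.PT
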